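import Pool.Agent.Q75.BM.Stm

/-!
Project BM, job LM.
-/

set_option autoImplicit false

namespace Pool.Agent.Q16.BM

open Filter Topology MeasureTheory Set
open scoped ContDiff
open Pool.Agent.Q75.BM

theorem t_LM (hLP : S_LP) (hCH : S_CH) (hE3 : S_E3) (hHB : S_HB) (hE1 : S_E1) : S_LM := by
  intro ε he0 he1
  have hlim := hCH ε he0 he1
  have hcont : ∀ n : ℕ, Continuous (fun l : ℂ => Ew ε n (fun w => Real.log (hs (wmat w l))) / n) :=
    fun n => ((hE3 ε n).2 (fun w l => Real.log (hs (wmat w l))) fun w => (hHB.2.2 w).1).div_const _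
  have hchi0 : ∀ l, 0 ≤ chi ε l := fun l =>
    ge_of_tendsto' (hlim l).1 fun n => ((hlim l).2 n).1
  have hchi1 : ∀ l, chi ε l ≤ Real.log (‖l‖ + 2) := fun l =>
    le_of_tendsto' (hlim l).1 fun n => ((hlim l).2 n).2
  have hmeas : Measurable (chi ε) :=
    measurable_of_tendsto_metrizable (fun n => (hcont n).measurable)
      (tendsto_pi_nhds.2 fun l => (hlim l).1)
  have hlogc : Continuous (fun l : ℂ => Real.log (‖l‖ + 2)) := by
    refine Continuous.log (continuous_norm.add continuous_const) fun l => ?_
    have := norm_nonneg l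
    positivity
  have hlog0 : ∀ l : ℂ, 0 ≤ Real.log (‖l‖ + 2) := fun l =>
    Real.log_nonneg (by have := norm_nonneg l; linarith)
  refine ⟨?_, fun φ hφ => ?_⟩
  · refine (hlogc.locallyIntegrable (μ := volume)).mono hmeas.aestronglyMeasurable
      (Eventually.of_forall fun l => ?_)
    rw [Real.norm_eq_abs, Real.norm_eq_abs, abs_of_nonneg (hchi0 l), abs_of_nonneg (hlog0 l)]
    exact hchi1 l
  · obtain ⟨hLc, hLs, -⟩ := hLP φ hφ
    have e1 : ∀ n : ℕ, Ew ε n (fun w => ∫ l, Real.log (hs (wmat w l)) * Lap φ l) / n =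
        ∫ l, (Ew ε n (fun w => Real.log (hs (wmat w l))) / n) * Lap φ l := by
      intro n
      rw [← ((hE3 ε n).1 (fun w l => Real.log (hs (wmat w l)) * Lap φ l) fun w =>
        Continuous.integrable_of_hasCompactSupport (((hHB.2.2 w).1).mul hLc) hLs.mul_left).2,
        ← integral_div]
      refine integral_congr_ae (Eventually.of_forall fun l => ?_)
      have h1 := (hE1 ε he0 he1 n).2.1 (Lap φ l) (fun w => Real.log (hs (wmat w l)))
      have h2 : (fun w => Real.log (hs (wmat w l)) * Lap φ l) =
          fun w => Lap φ l * Real.log (hs (wmat w l)) := by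
        funext w
        ring
      simp only [h2, h1]
      ring
    simp only [e1]
    refine tendsto_integral_of_dominated_convergence (fun l => Real.log (‖l‖ + 2) * |Lap φ l|)
      (fun n => ((hcont n).mul hLc).aestronglyMeasurable) ?_ (fun n => ?_) ?_
    · exact Continuous.integrable_of_hasCompactSupport (hlogc.mul hLc.abs)
        (hLs.abs.mul_left)
    · refine Eventually.of_forall fun l => ?_
      rw [norm_mul, Real.norm_eq_abs, Real.norm_eq_abs, abs_of_nonneg ((hlim l).2 n).1]
      exact mul_le_mul_of_nonneg_right ((hlim l).2 n).2 (abs_nonneg _)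
    · exact Eventually.of_forall fun l => (hlim l).1.mul_const _

end Pool.Agent.Q16.BM
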